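import Pool.Agent.helper69.DH.SpecR2

/-! # Project d2 (MP_5823cb_al), part R, row RST: the empty data (helper38) -/

set_option autoImplicit false

open Filter Topology MeasureTheory
open scoped commutatorElement

namespace Pool.Agent.helper90.DH

open Pool.Agent.helper64.D2

theorem RST : RST_stmt := by
  intro q s0 w0 a cm y h s hs
  refine ⟨fun _ => ⟨rfl, rfl⟩, fun h1 => ?_⟩
  exfalso
  have h2 : s0 + w0 - a * LL w0 ≤ s := h1
  omega

end Pool.Agent.helper90.DH
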