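import Pool.Agent.helper69.DH.SpecR

/-! # Project d2 (MP_5823cb_al), part R, row rMXS: mixing for source sets in a window (helper38) -/

set_option autoImplicit false

open Filter Topology MeasureTheory
open scoped commutatorElement

namespace Pool.Agent.helper90.DH

open Pool.Agent.helper64.D2

theorem rMXS_key (hGEO : rGEO_stmt) (hREE : rREE_stmt) (P : RQ) (S : ℕ) (hR : RHY P S) (s : ℕ) (A Q : Finset ℤ) (κ : ℤ) (θ β : ℝ)
    (hs1 : P.S1 ≤ s) (hs2 : s ≤ S) (hθ : 0 < θ) (hA1 : ∀ n ∈ A, |rlp s n - 1 / 2| ≤ 24 / 100) (hA2 : ∀ n ∈ A, n / 2 ^ (s - P.ell) = κ)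
    (hA3 : ∀ n ∈ A, θ * P.q ≤ (((Finset.range P.q).filter (fun k => rbb P s k n ∈ Q)).card : ℝ))
    (hβ : (rcw P.ell s (κ - 1) Q + rcw P.ell s κ Q + rcw P.ell s (κ + 1) Q : ℝ) ≤ β)
    (hc : (A.card : ℝ) ≤ 2 ^ 10 * P.d1 * 2 ^ (s - P.ell)) : (A.card : ℝ) ≤ 4 * β / (2 ^ 104 * θ ^ 2) := by
  have hgeo := hGEO P S hR
  have hree := hREE P S hR
  obtain ⟨⟨hq, -, -, -, hs0S1, -, hd1, h8⟩, -, -, hMX⟩ := hR
  have hs0 : P.s0 ≤ s := hs0S1.trans hs1
  have hwin : ∀ k < P.q, ∀ n : ℤ, |rbb P s k n / 2 ^ (s - P.ell) - n / 2 ^ (s - P.ell)| ≤ 1 := fun k hk n =>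
    ((hgeo.2 s k hs0 hs2 hk).2.2.1 n).2
  obtain ⟨Q', hQ'⟩ : ∃ Q' : Finset ℤ, Q' = Q.filter (fun m => m / 2 ^ (s - P.ell) = κ - 1 ∨ m / 2 ^ (s - P.ell) = κ ∨ m / 2 ^ (s - P.ell) = κ + 1) := ⟨_, rfl⟩
  have hQc : (Q'.card : ℝ) ≤ β := by
    refine le_trans ?_ hβ
    have h1 : Q' ⊆ (Q.filter (fun m => m / 2 ^ (s - P.ell) = κ - 1) ∪ Q.filter (fun m => m / 2 ^ (s - P.ell) = κ)) ∪ Q.filter (fun m => m / 2 ^ (s - P.ell) = κ + 1) := by
      intro m hm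
      rw [hQ', Finset.mem_filter] at hm
      rw [Finset.mem_union, Finset.mem_union, Finset.mem_filter, Finset.mem_filter, Finset.mem_filter]
      rcases hm.2 with h | h | h
      · exact Or.inl (Or.inl ⟨hm.1, h⟩)
      · exact Or.inl (Or.inr ⟨hm.1, h⟩)
      · exact Or.inr ⟨hm.1, h⟩
    have h2 := Finset.card_le_card h1
    have h3 := Finset.card_union_le (Q.filter (fun m => m / 2 ^ (s - P.ell) = κ - 1) ∪ Q.filter (fun m => m / 2 ^ (s - P.ell) = κ)) (Q.filter (fun m => m / 2 ^ (s - P.ell) = κ + 1))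
    have h4 := Finset.card_union_le (Q.filter (fun m => m / 2 ^ (s - P.ell) = κ - 1)) (Q.filter (fun m => m / 2 ^ (s - P.ell) = κ))
    have h5 : Q'.card ≤ rcw P.ell s (κ - 1) Q + rcw P.ell s κ Q + rcw P.ell s (κ + 1) Q := by
      unfold rcw
      omega
    exact_mod_cast h5
  have hβ0 : 0 ≤ β := (Nat.cast_nonneg _).trans hQc
  have hmx := (hMX s hs1 hs2).1 A Q' hA1 (by
    intro κ'
    refine le_trans ?_ hc
    have : rcw P.ell s κ' A ≤ A.card := Finset.card_filter_le _ _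
    exact_mod_cast this)
  have hre := hree s A Q' hs0 hs2
  -- the number of pairs
  have hpairs : θ * P.q * A.card ≤ (((A ×ˢ Finset.range P.q).filter (fun p => rbb P s p.2 p.1 ∈ Q')).card : ℝ) := by
    have h1 : ((A ×ˢ Finset.range P.q).filter (fun p => rbb P s p.2 p.1 ∈ Q')).card =
        ∑ n ∈ A, ((Finset.range P.q).filter (fun k => rbb P s k n ∈ Q')).card := by
      rw [Finset.card_filter, Finset.sum_product]
      apply Finset.sum_congr rfl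
      intro n _
      rw [Finset.card_filter]
    rw [h1]
    push_cast
    have h2 : θ * P.q * A.card = ∑ n ∈ A, θ * P.q := by
      rw [Finset.sum_const, nsmul_eq_mul, mul_comm]
    rw [h2]
    apply Finset.sum_le_sum
    intro n hn
    refine (hA3 n hn).trans ?_
    have h3 : (Finset.range P.q).filter (fun k => rbb P s k n ∈ Q) ⊆ (Finset.range P.q).filter (fun k => rbb P s k n ∈ Q') := by
      intro k hk
      rw [Finset.mem_filter] at hk ⊢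
      refine ⟨hk.1, ?_⟩
      rw [hQ', Finset.mem_filter]
      refine ⟨hk.2, ?_⟩
      have h4 := hwin k (Finset.mem_range.1 hk.1) n
      rw [hA2 n hn] at h4
      have h5 := abs_le.1 h4
      omega
    exact_mod_cast Finset.card_le_card h3
  by_cases hA0 : A.card = 0
  · rw [hA0, Nat.cast_zero]
    positivity
  have hAp : (0 : ℝ) < A.card := by exact_mod_cast Nat.pos_of_ne_zero hA0
  have hqp : (0 : ℝ) < P.q := by exact_mod_cast hq
  have h1 : θ * P.q * A.card ≤ 2 * (ree P s A Q' : ℝ) := by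
    refine hpairs.trans ?_
    exact_mod_cast hre
  have h2 : (θ * P.q * A.card) ^ 2 ≤ (2 * (ree P s A Q' : ℝ)) ^ 2 := pow_le_pow_left₀ (by positivity) h1 2
  have h3 : (2 * (ree P s A Q' : ℝ)) ^ 2 ≤ 4 * ((P.q : ℝ) ^ 2 * A.card * Q'.card / 2 ^ 104) := by
    rw [mul_pow]
    linarith
  have h4 : (θ * P.q * A.card) ^ 2 ≤ 4 * ((P.q : ℝ) ^ 2 * A.card * β / 2 ^ 104) := by
    refine (h2.trans h3).trans ?_
    have : (P.q : ℝ) ^ 2 * A.card * Q'.card ≤ (P.q : ℝ) ^ 2 * A.card * β := mul_le_mul_of_nonneg_left hQc (by positivity)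
    have h5 : (P.q : ℝ) ^ 2 * A.card * Q'.card / 2 ^ 104 ≤ (P.q : ℝ) ^ 2 * A.card * β / 2 ^ 104 := div_le_div_of_nonneg_right this (by positivity)
    linarith
  rw [le_div_iff₀ (by positivity)]
  have h5 : ((P.q : ℝ) ^ 2 * A.card) * (A.card * (2 ^ 104 * θ ^ 2)) ≤ ((P.q : ℝ) ^ 2 * A.card) * (4 * β) := by
    have h6 : 4 * ((P.q : ℝ) ^ 2 * A.card * β / 2 ^ 104) * 2 ^ 104 = ((P.q : ℝ) ^ 2 * A.card) * (4 * β) := by
      field_simp
    have h7 : (θ * P.q * A.card) ^ 2 * 2 ^ 104 = ((P.q : ℝ) ^ 2 * A.card) * (A.card * (2 ^ 104 * θ ^ 2)) := by ring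
    rw [← h6, ← h7]
    exact mul_le_mul_of_nonneg_right h4 (by positivity)
  exact le_of_mul_le_mul_left h5 (by positivity)

theorem rMXS (hGEO : rGEO_stmt) (hREE : rREE_stmt) : rMXS_stmt := by
  intro P S hR s A Q κ θ β hs1 hs2 hθ hA1 hA2 hA3 hβ hsm
  by_cases hc : (A.card : ℝ) ≤ 2 ^ 10 * P.d1 * 2 ^ (s - P.ell)
  · exact rMXS_key hGEO hREE P S hR s A Q κ θ β hs1 hs2 hθ hA1 hA2 hA3 hβ hc
  exfalso
  have hc' := not_le.1 hc
  have hd1 : 0 < P.d1 := hR.1.2.2.2.2.2.2.1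
  have h8 : 8 ≤ 2 ^ 10 * P.d1 * 2 ^ (P.S1 - P.ell) := hR.1.2.2.2.2.2.2.2
  obtain ⟨X, hX⟩ : ∃ X : ℝ, X = 2 ^ 10 * P.d1 * 2 ^ (s - P.ell) := ⟨_, rfl⟩
  have hX8 : 8 ≤ X := by
    rw [hX]
    refine h8.trans ?_
    apply mul_le_mul_of_nonneg_left _ (by positivity)
    exact pow_le_pow_right₀ (by norm_num) (by omega)
  rw [← hX] at hc'
  have hN : ⌊X⌋₊ ≤ A.card := by
    have h1 : (⌊X⌋₊ : ℝ) ≤ X := Nat.floor_le (by linarith)
    have h2 : (⌊X⌋₊ : ℝ) ≤ A.card := by linarith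
    exact_mod_cast h2
  obtain ⟨A', hA', hA'c⟩ := Finset.exists_subset_card_eq hN
  have h1 := rMXS_key hGEO hREE P S hR s A' Q κ θ β hs1 hs2 hθ (fun n hn => hA1 n (hA' hn)) (fun n hn => hA2 n (hA' hn)) (fun n hn => hA3 n (hA' hn)) hβ (by
    rw [hA'c, ← hX]
    exact Nat.floor_le (by linarith))
  rw [hA'c] at h1
  have h2 := Nat.lt_floor_add_one X
  have h3 : (2 : ℝ) ^ 9 * P.d1 * 2 ^ (s - P.ell) = X / 2 := by
    rw [hX]; ring
  rw [h3] at hsm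
  linarith

end Pool.Agent.helper90.DH
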